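import Pool.Agent.MP_c1891a_nt.H96.Spec
import Pool.Agent.MP_c1891a_nt.H4.Det
import Pool.Agent.MP_c1891a_nt.H12.BP

/-
The determinant method for rational points near a parametrised transcendental arc.
-/

namespace Pool.Agent.MP_c1891a_nt.H43

open Finset Polynomial Filter Topology

/-- the derivatives of the monomials along the arc. -/
noncomputable def ppD (γ ψ : ℝ → ℝ) {d : ℕ} (i : Fin d × Fin d) (k : ℕ) : ℝ → ℝ :=
  deriv^[k] fun t => γ t ^ (i.1 : ℕ) * ψ t ^ (i.2 : ℕ)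

theorem ppD_an {γ ψ : ℝ → ℝ} {t : ℝ} (h : AnalyticAt ℝ γ t) (h' : AnalyticAt ℝ ψ t) {d : ℕ}
    (i : Fin d × Fin d) (k : ℕ) : AnalyticAt ℝ (ppD γ ψ i k) t := by
  refine AnalyticAt.iterated_deriv ?_ k
  exact (h.pow _).mul (h'.pow _)

theorem ppD_deriv {γ ψ : ℝ → ℝ} {t : ℝ} (h : AnalyticAt ℝ γ t) (h' : AnalyticAt ℝ ψ t) {d : ℕ}
    (i : Fin d × Fin d) (k : ℕ) : HasDerivAt (ppD γ ψ i k) (ppD γ ψ i (k + 1) t) t := by
  have := (ppD_an h h' i k).differentiableAt.hasDerivAt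
  unfold ppD at this ⊢
  rw [Function.iterate_succ']
  exact this

theorem pp_bd {γ ψ : ℝ → ℝ} {a b : ℝ} (h : AnalyticOnNhd ℝ γ (Set.Icc a b))
    (h' : AnalyticOnNhd ℝ ψ (Set.Icc a b)) (d n : ℕ) :
    ∃ M : ℝ, 0 ≤ M ∧ ∀ k ≤ n, ∀ i : Fin d × Fin d, ∀ t ∈ Set.Icc a b, |ppD γ ψ i k t| ≤ M := by
  have hc : ContinuousOn (fun v => ∑ k ∈ range (n + 1), ∑ i : Fin d × Fin d, |ppD γ ψ i k v|)
      (Set.Icc a b) := by
    refine continuousOn_finsetSum _ fun k _ => continuousOn_finsetSum _ fun i _ => ?_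
    exact fun v hv => (ppD_an (h v hv) (h' v hv) i k).continuousAt.continuousWithinAt.abs
  obtain ⟨M, hM⟩ := isCompact_Icc.exists_bound_of_continuousOn hc
  refine ⟨max M 0, le_max_right _ _, fun k hk i v hv => ?_⟩
  have h1 := (le_abs_self _).trans (hM v hv)
  have h2 : ∑ i : Fin d × Fin d, |ppD γ ψ i k v|
      ≤ ∑ k ∈ range (n + 1), ∑ i : Fin d × Fin d, |ppD γ ψ i k v| :=
    Finset.single_le_sum (f := fun k => ∑ i : Fin d × Fin d, |ppD γ ψ i k v|)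
      (fun k _ => Finset.sum_nonneg fun i _ => abs_nonneg _) (Finset.mem_range.2 (by omega))
  have h3 : |ppD γ ψ i k v| ≤ ∑ i : Fin d × Fin d, |ppD γ ψ i k v| :=
    Finset.single_le_sum (f := fun i : Fin d × Fin d => |ppD γ ψ i k v|)
      (fun i _ => abs_nonneg _) (Finset.mem_univ i)
  exact h3.trans (h2.trans (h1.trans (le_max_left _ _)))

theorem pp_pow {G u g τ : ℝ} (hG : 1 ≤ G) (hu : |u| ≤ G) (hg : |g| ≤ G) (h : |u - g| ≤ τ)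
    {d i : ℕ} (hi : i < d) : |u ^ i - g ^ i| ≤ τ * d * G ^ d ∧ |u ^ i| ≤ G ^ d := by
  have hτ0 : 0 ≤ τ := (abs_nonneg _).trans h
  constructor
  · refine (abs_pow_sub_pow_le _ _ _).trans ?_
    have h5 : (max |u| |g|) ^ (i - 1) ≤ G ^ d :=
      (pow_le_pow_left₀ (le_max_of_le_left (abs_nonneg _)) (max_le hu hg) _).trans
        (pow_le_pow_right₀ hG (by omega))
    have h6 : (i : ℝ) ≤ d := by exact_mod_cast hi.le
    gcongr
  · rw [abs_pow]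
    exact (pow_le_pow_left₀ (abs_nonneg _) hu _).trans (pow_le_pow_right₀ hG hi.le)

theorem pp_pert {γ ψ : ℝ → ℝ} {a b : ℝ} (h : AnalyticOnNhd ℝ γ (Set.Icc a b))
    (h' : AnalyticOnNhd ℝ ψ (Set.Icc a b)) (d : ℕ) :
    ∃ M₂ : ℝ, 0 ≤ M₂ ∧ ∀ i : Fin d × Fin d, ∀ t ∈ Set.Icc a b, ∀ u v τ : ℝ, |u - γ t| ≤ τ →
      |v - ψ t| ≤ τ → τ ≤ 1 →
      |u ^ (i.1 : ℕ) * v ^ (i.2 : ℕ) - γ t ^ (i.1 : ℕ) * ψ t ^ (i.2 : ℕ)| ≤ M₂ * τ := by
  obtain ⟨G, hG⟩ := isCompact_Icc.exists_bound_of_continuousOn h.continuousOn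
  obtain ⟨G', hG'⟩ := isCompact_Icc.exists_bound_of_continuousOn h'.continuousOn
  set B : ℝ := |G| + |G'| + 1 with hB
  have a1 := abs_nonneg G
  have a2 := abs_nonneg G'
  have hB1 : 1 ≤ B := by linarith
  refine ⟨2 * (d * B ^ d * B ^ d), by positivity, fun i t ht u v τ hu hv hτ => ?_⟩
  have h1 : |γ t| ≤ |G| := (hG t ht).trans (le_abs_self _)
  have h1' : |ψ t| ≤ |G'| := (hG' t ht).trans (le_abs_self _)
  have h2 : |u| ≤ B := by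
    have := abs_sub_abs_le_abs_sub u (γ t)
    linarith
  have h2' : |v| ≤ B := by
    have := abs_sub_abs_le_abs_sub v (ψ t)
    linarith
  have hτ0 : 0 ≤ τ := (abs_nonneg _).trans hu
  obtain ⟨p1, -⟩ := pp_pow hB1 h2 (by linarith) hu i.1.2
  obtain ⟨p2, p3⟩ := pp_pow hB1 h2' (by linarith) hv i.2.2
  obtain ⟨-, p4⟩ := pp_pow (u := γ t) (g := γ t) (τ := 0) hB1 (by linarith) (by linarith)
    (by simp) i.1.2
  have e : u ^ (i.1 : ℕ) * v ^ (i.2 : ℕ) - γ t ^ (i.1 : ℕ) * ψ t ^ (i.2 : ℕ) =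
      (u ^ (i.1 : ℕ) - γ t ^ (i.1 : ℕ)) * v ^ (i.2 : ℕ) +
        γ t ^ (i.1 : ℕ) * (v ^ (i.2 : ℕ) - ψ t ^ (i.2 : ℕ)) := by ring
  rw [e]
  refine (abs_add_le _ _).trans ?_
  rw [abs_mul, abs_mul]
  calc _ ≤ τ * d * B ^ d * B ^ d + B ^ d * (τ * d * B ^ d) := by gcongr
    _ = _ := by ring

theorem pp_small {γ ψ : ℝ → ℝ} {a b : ℝ} (h : AnalyticOnNhd ℝ γ (Set.Icc a b))
    (h' : AnalyticOnNhd ℝ ψ (Set.Icc a b)) (d : ℕ)
    (M M₂ : ℝ) (hM0 : 0 ≤ M) (hM₂0 : 0 ≤ M₂)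
    (hM : ∀ k ≤ d * d, ∀ i : Fin d × Fin d, ∀ v ∈ Set.Icc a b, |ppD γ ψ i k v| ≤ M)
    (ℓ τ x : ℝ) (hℓ0 : 0 < ℓ) (hℓ1 : ℓ ≤ 1) (hτ : τ ≤ ℓ ^ (d * d)) (hx : x ∈ Set.Icc a b)
    (u u' v : Fin d × Fin d → ℝ) (hv : ∀ r, v r ∈ Set.Icc a b) (hvx : ∀ r, |v r - x| ≤ ℓ)
    (hu : ∀ (i : Fin d × Fin d) r, |u r ^ (i.1 : ℕ) * u' r ^ (i.2 : ℕ)
      - γ (v r) ^ (i.1 : ℕ) * ψ (v r) ^ (i.2 : ℕ)| ≤ M₂ * τ) :
    |(Matrix.of fun (i : Fin d × Fin d) r => u r ^ (i.1 : ℕ) * u' r ^ (i.2 : ℕ)).det|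
      ≤ ℓ ^ (d * d * (d * d - 1) / 2)
        * ((d * d).factorial * (((d * d : ℕ) + 1) * M + M₂) ^ (d * d)) := by
  have hρ : 1 ≤ ℓ⁻¹ := one_le_inv₀ hℓ0 |>.2 hℓ1
  have key := Pool.Agent.MP_089fcb_co.H21.det_bound (n := Fin d × Fin d) (d * d) (by simp) ℓ⁻¹ hρ
    (fun i m => ppD γ ψ i m x / (m.factorial : ℝ)) (fun r => v r - x)
    (Matrix.of fun (i : Fin d × Fin d) r => u r ^ (i.1 : ℕ) * u' r ^ (i.2 : ℕ)
      - ∑ m ∈ range (d * d), ppD γ ψ i m x / (m.factorial : ℝ) * (v r - x) ^ m)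
    (Matrix.of fun (i : Fin d × Fin d) r => u r ^ (i.1 : ℕ) * u' r ^ (i.2 : ℕ))
    (Matrix.of fun _ _ => ((d * d : ℕ) + 1) * M + M₂)
    (by
      intro i r
      simp only [Matrix.of_apply]
      ring)
    (by
      intro i r
      simp only [Matrix.of_apply]
      have h1 : ∀ m ∈ range (d * d),
          ℓ⁻¹ ^ m * |ppD γ ψ i m x / (m.factorial : ℝ) * (v r - x) ^ m| ≤ M := by
        intro m hm
        have h2 := hM m (Finset.mem_range.1 hm).le i x hx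
        have h3 : (1 : ℝ) ≤ m.factorial := by exact_mod_cast m.factorial_pos
        have h4 : |ppD γ ψ i m x / (m.factorial : ℝ)| ≤ M := by
          rw [abs_div, Nat.abs_cast]
          exact (div_le_self (abs_nonneg _) h3).trans h2
        have h5 : |(v r - x) ^ m| ≤ ℓ ^ m := by
          rw [abs_pow]
          exact pow_le_pow_left₀ (abs_nonneg _) (hvx r) m
        rw [abs_mul]
        calc _ ≤ ℓ⁻¹ ^ m * (M * ℓ ^ m) := by gcongr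
          _ = M := by
            rw [inv_pow]
            field_simp
      have h6 := Finset.sum_le_card_nsmul _ _ _ h1
      rw [Finset.card_range, nsmul_eq_mul] at h6
      have h7 := H91.bpa_taylor _ Set.ordConnected_Icc M x hx (d * d) (ppD γ ψ i)
        (fun k t ht => ppD_deriv (h t ht) (h' t ht) i k) (hM (d * d) le_rfl i) (v r) (hv r)
      have h8 : |v r - x| ^ (d * d) ≤ ℓ ^ (d * d) :=
        pow_le_pow_left₀ (abs_nonneg _) (hvx r) _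
      have h9 : |u r ^ (i.1 : ℕ) * u' r ^ (i.2 : ℕ)
          - ∑ m ∈ range (d * d), ppD γ ψ i m x / (m.factorial : ℝ) * (v r - x) ^ m|
          ≤ (M + M₂) * ℓ ^ (d * d) := by
        have e : ppD γ ψ i 0 (v r) = γ (v r) ^ (i.1 : ℕ) * ψ (v r) ^ (i.2 : ℕ) := rfl
        rw [e] at h7
        have h10 := abs_sub_le (u r ^ (i.1 : ℕ) * u' r ^ (i.2 : ℕ))
          (γ (v r) ^ (i.1 : ℕ) * ψ (v r) ^ (i.2 : ℕ))
          (∑ m ∈ range (d * d), ppD γ ψ i m x / (m.factorial : ℝ) * (v r - x) ^ m)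
        have h11 := hu i r
        have h12 := mul_le_mul_of_nonneg_left h8 hM0
        have h13 := mul_le_mul_of_nonneg_left hτ hM₂0
        linarith
      have h14 : ℓ⁻¹ ^ (d * d) * |u r ^ (i.1 : ℕ) * u' r ^ (i.2 : ℕ)
          - ∑ m ∈ range (d * d), ppD γ ψ i m x / (m.factorial : ℝ) * (v r - x) ^ m|
          ≤ M + M₂ := by
        calc _ ≤ ℓ⁻¹ ^ (d * d) * ((M + M₂) * ℓ ^ (d * d)) := by gcongr
          _ = M + M₂ := by
            rw [inv_pow]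
            field_simp
      linarith)
  simp only [Matrix.of_apply, Finset.prod_const, Finset.card_univ, Fintype.card_prod,
    Fintype.card_fin, Finset.sum_const, Fintype.card_perm, nsmul_eq_mul] at key
  have e : ℓ ^ (d * d * (d * d - 1) / 2) * ℓ⁻¹ ^ (d * d * (d * d - 1) / 2) = 1 := by
    rw [← mul_pow, mul_inv_cancel₀ hℓ0.ne', one_pow]
  calc _ = ℓ ^ (d * d * (d * d - 1) / 2) * (ℓ⁻¹ ^ (d * d * (d * d - 1) / 2)
        * |(Matrix.of fun (i : Fin d × Fin d) r => u r ^ (i.1 : ℕ) * u' r ^ (i.2 : ℕ)).det|) := by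
        rw [← mul_assoc, e, one_mul]
    _ ≤ _ := mul_le_mul_of_nonneg_left key (by positivity)

theorem pp_det (γ ψ : ℝ → ℝ) (a b : ℝ) (h : AnalyticOnNhd ℝ γ (Set.Icc a b))
    (h' : AnalyticOnNhd ℝ ψ (Set.Icc a b)) (d : ℕ) (hd : 2 ≤ d) :
    ∃ (c : ℝ) (A N₀ : ℕ), 0 < c ∧ ∀ N : ℕ, N₀ ≤ N → ∀ (t : ℝ) (S : Finset (ℤ × ℤ))
      (p : ℤ × ℤ → ℝ),
      (∀ z ∈ S, p z ∈ Set.Icc a b ∧ |p z - t| ≤ c * (N : ℝ) ^ (-(2 / (d + 1)) : ℝ) ∧
        |(z.1 / N : ℝ) - γ (p z)| ≤ ((N : ℝ) ^ A)⁻¹ ∧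
        |(z.2 / N : ℝ) - ψ (p z)| ≤ ((N : ℝ) ^ A)⁻¹) →
      ∃ w : Fin d × Fin d → ℝ, (∃ i, |w i| = 1) ∧ (∀ i, |w i| ≤ 1) ∧
        ∀ z ∈ S, ∑ i, w i * ((z.1 / N : ℝ) ^ (i.1 : ℕ) * (z.2 / N : ℝ) ^ (i.2 : ℕ)) = 0 := by
  classical
  obtain ⟨M, hM0, hM⟩ := pp_bd h h' d (d * d)
  obtain ⟨M₂, hM₂0, hM₂⟩ := pp_pert h h' d
  obtain ⟨W, hW⟩ : ∃ W : ℝ,
      W = (d * d).factorial * (((d * d : ℕ) + 1) * M + M₂) ^ (d * d) := ⟨_, rfl⟩
  have hW0 : 0 ≤ W := by rw [hW]; positivity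
  have hW1 : 1 ≤ W + 1 := by linarith
  refine ⟨(W + 1)⁻¹ / 2, d * d + 1, ⌈(W + 1) ^ (d * d)⌉₊, by positivity, ?_⟩
  intro N hN t S p hS
  have hNW : (W + 1) ^ (d * d) ≤ N := Nat.ceil_le.1 hN
  have hN1 : (1 : ℝ) ≤ N := (one_le_pow₀ hW1).trans hNW
  have hN0 : (0 : ℝ) < N := by linarith
  obtain ⟨s, hs⟩ : ∃ s : ℝ, s = (N : ℝ) ^ (-(2 / (d + 1)) : ℝ) := ⟨_, rfl⟩
  have hd3 : (3 : ℝ) ≤ d + 1 := by
    have : (2 : ℝ) ≤ d := by exact_mod_cast hd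
    linarith
  have hs0 : 0 < s := by rw [hs]; positivity
  have hs1 : s ≤ 1 := by
    rw [hs]
    exact Real.rpow_le_one_of_one_le_of_nonpos hN1 (neg_nonpos.2 (by positivity))
  have hs2 : (N : ℝ)⁻¹ ≤ s := by
    rw [hs, ← Real.rpow_neg_one]
    refine Real.rpow_le_rpow_of_exponent_le hN1 (neg_le_neg ?_)
    rw [div_le_one (by linarith)]
    linarith
  rw [← hs] at hS
  have hc1 : (W + 1)⁻¹ ≤ 1 := inv_le_one_of_one_le₀ hW1
  have hc0 : 0 < (W + 1)⁻¹ := by positivity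
  have hℓ0 : 0 < (W + 1)⁻¹ * s := by positivity
  have hℓ1 : (W + 1)⁻¹ * s ≤ 1 := mul_le_one₀ hc1 hs0.le hs1
  have hτ : ((N : ℝ) ^ (d * d + 1))⁻¹ ≤ ((W + 1)⁻¹ * s) ^ (d * d) := by
    have e1 : (N : ℝ)⁻¹ ≤ (W + 1)⁻¹ ^ (d * d) := by
      rw [inv_pow]
      exact inv_anti₀ (by positivity) hNW
    have e2 : (N : ℝ)⁻¹ ^ (d * d) ≤ s ^ (d * d) := pow_le_pow_left₀ (by positivity) hs2 _
    rw [mul_pow, ← inv_pow, pow_succ']
    gcongr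
  have hτ1 : ((N : ℝ) ^ (d * d + 1))⁻¹ ≤ 1 := hτ.trans (pow_le_one₀ hℓ0.le hℓ1)
  have hsm : (N : ℝ) ^ (d * d * (d - 1))
      * (((W + 1)⁻¹ * s) ^ (d * d * (d * d - 1) / 2) * W) < 1 := by
    have e1 := det_rpow d hd N hN1
    rw [← hs] at e1
    have e2 : 1 ≤ d * d * (d * d - 1) / 2 := by
      have h4 : 4 ≤ d * d := Nat.mul_le_mul hd hd
      have h5 : 4 * 3 ≤ d * d * (d * d - 1) := Nat.mul_le_mul h4 (by omega)
      omega
    have e3 : (W + 1)⁻¹ ^ (d * d * (d * d - 1) / 2) ≤ (W + 1)⁻¹ := by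
      simpa using pow_le_pow_of_le_one hc0.le hc1 e2
    calc _ = ((N : ℝ) ^ (d * d * (d - 1)) * s ^ (d * d * (d * d - 1) / 2))
          * ((W + 1)⁻¹ ^ (d * d * (d * d - 1) / 2) * W) := by rw [mul_pow]; ring
      _ ≤ 1 * ((W + 1)⁻¹ * W) := by rw [e1]; gcongr
      _ < 1 := by
        rw [one_mul, inv_mul_lt_iff₀ (by linarith)]
        linarith
  have hdet : ∀ f : Fin d × Fin d → ℤ × ℤ, (∀ r, f r ∈ S) →
      (Matrix.of fun (i : Fin d × Fin d) r =>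
        (((f r).1 : ℝ) / N) ^ (i.1 : ℕ) * (((f r).2 : ℝ) / N) ^ (i.2 : ℕ)).det = 0 := by
    intro f hf
    have r₀ : Fin d × Fin d := (⟨0, by omega⟩, ⟨0, by omega⟩)
    refine det_int d N hN0 (fun r => (f r).1) (fun r => (f r).2) _ ?_ hsm
    rw [hW]
    refine pp_small h h' d M M₂ hM0 hM₂0 hM _ _ (p (f r₀)) (hW ▸ hℓ0) (hW ▸ hℓ1) (hW ▸ hτ)
      (hS _ (hf r₀)).1 _ _ (fun r => p (f r)) (fun r => (hS _ (hf r)).1) (fun r => ?_)
      (fun i r => hM₂ i _ (hS _ (hf r)).1 _ _ _ (hS _ (hf r)).2.2.1 (hS _ (hf r)).2.2.2 hτ1)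
    have h1 := abs_le.1 (hS _ (hf r)).2.1
    have h2 := abs_le.1 (hS _ (hf r₀)).2.1
    rw [← hW]
    exact abs_le.2 ⟨by linarith [h1.1, h2.2], by linarith [h1.2, h2.1]⟩
  have hex : ∃ w₀ : Fin d × Fin d → ℝ, (∀ q : S, ∑ i, w₀ i
      * (((q.1.1 : ℝ) / N) ^ (i.1 : ℕ) * ((q.1.2 : ℝ) / N) ^ (i.2 : ℕ)) = 0) ∧ w₀ ≠ 0 := by
    by_contra hcon
    push Not at hcon
    obtain ⟨f, -, hf⟩ := Pool.Agent.MP_089fcb_co.H21.exists_minor
      (Matrix.of fun (i : Fin d × Fin d) (q : S) =>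
        ((q.1.1 : ℝ) / N) ^ (i.1 : ℕ) * ((q.1.2 : ℝ) / N) ^ (i.2 : ℕ))
      (fun v hv i => congrFun (hcon v hv) i)
    exact hf (hdet (fun r => (f r).1) fun r => (f r).2)
  obtain ⟨w₀, hw₀, hne⟩ := hex
  obtain ⟨i₁, hi₁⟩ := Function.ne_iff.1 hne
  obtain ⟨i₀, -, hi₀⟩ := Finset.exists_max_image univ (fun i => |w₀ i|) ⟨i₁, mem_univ _⟩
  have hp : 0 < |w₀ i₀| := (abs_pos.2 hi₁).trans_le (hi₀ i₁ (mem_univ _))
  refine ⟨fun i => w₀ i / |w₀ i₀|, ⟨i₀, ?_⟩, fun i => ?_, fun z hz => ?_⟩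
  · rw [abs_div, abs_abs, div_self hp.ne']
  · rw [abs_div, abs_abs]
    exact (div_le_one hp).2 (hi₀ i (mem_univ _))
  · have := hw₀ ⟨z, hz⟩
    simp only [div_mul_eq_mul_div]
    rw [← Finset.sum_div, this, zero_div]

theorem pp_indep {d : ℕ} {γ ψ : ℝ → ℝ} {v₁ : ℝ}
    (h : ∀ W : ℝ[X][X], (∀ᶠ v in 𝓝 v₁, W.evalEval (ψ v) (γ v) = 0) → W = 0)
    (w : Fin d × Fin d → ℝ)
    (hw : ∀ᶠ v in 𝓝 v₁, ∑ i, w i * (γ v ^ (i.1 : ℕ) * ψ v ^ (i.2 : ℕ)) = 0) : w = 0 := by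
  have h0 := h (∑ i : Fin d × Fin d, C (C (w i) * X ^ (i.2 : ℕ)) * X ^ (i.1 : ℕ)) (by
    filter_upwards [hw] with v hv
    rw [← hv]
    simp only [evalEval, eval_finsetSum, eval_mul, eval_C, eval_pow, eval_X]
    exact sum_congr rfl fun i _ => by ring)
  funext i₀
  have h1 := congrArg (fun W : ℝ[X][X] => (W.coeff i₀.1).coeff i₀.2) h0
  simp only [finsetSum_coeff, coeff_C_mul_X_pow, coeff_zero] at h1
  rw [sum_eq_single i₀] at h1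
  · simpa using h1
  · intro i _ hi
    split_ifs with h2
    · rw [coeff_C_mul_X_pow, if_neg]
      intro h3
      exact hi (Prod.ext (Fin.ext h2.symm) (Fin.ext h3.symm))
    · simp
  · simp

theorem pp_lip {γ : ℝ → ℝ} {a b : ℝ} (h : AnalyticOnNhd ℝ γ (Set.Icc a b)) :
    ∃ L : ℕ, ∀ t ∈ Set.Icc a b, ∀ t' ∈ Set.Icc a b, |γ t - γ t'| ≤ L * |t - t'| := by
  obtain ⟨B, hB⟩ := isCompact_Icc.exists_bound_of_continuousOn h.deriv.continuousOn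
  obtain ⟨L, hL⟩ := exists_nat_ge B
  refine ⟨L, fun t ht t' ht' => ?_⟩
  exact Convex.norm_image_sub_le_of_norm_deriv_le (𝕜 := ℝ)
    (fun x hx => (h x hx).differentiableAt) (fun x hx => (hB x hx).trans hL) (convex_Icc a b) ht' ht

theorem pp_sep {N L u u' g g' s : ℝ} (hN : 4 ≤ N) (hL : 2 * L ≤ N) (hs : 0 ≤ s)
    (h1 : N⁻¹ ≤ |u - u'|) (h2 : |u - g| ≤ (N ^ 2)⁻¹) (h3 : |u' - g'| ≤ (N ^ 2)⁻¹)
    (h4 : |g - g'| ≤ L * s) : (N ^ 2)⁻¹ ≤ s := by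
  have hN0 : 0 < N := by linarith
  have e1 : 4 * (N ^ 2)⁻¹ ≤ N⁻¹ := by
    rw [← div_eq_mul_inv, div_le_iff₀ (by positivity), sq, ← mul_assoc,
      inv_mul_cancel₀ hN0.ne']
    linarith
  have e2 : |u - u'| ≤ |u - g| + |g - g'| + |u' - g'| := by
    have a1 := abs_sub_le u g u'
    have a2 := abs_sub_le g g' u'
    rw [abs_sub_comm g' u'] at a2
    linarith
  have e3 : N⁻¹ ≤ N * s := by nlinarith
  rw [sq, mul_inv, inv_mul_le_iff₀ hN0]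
  exact e3

theorem sBPP (h1 : SZE) : SBPP := by
  classical
  intro γ ψ a b hγ hψ htr ε hε
  obtain ⟨d', hd'⟩ := exists_nat_gt (2 / ε)
  set d := d' + 2 with hd
  have hθ : (2 / ((d : ℝ) + 1)) ≤ ε := by
    rw [div_lt_iff₀ hε] at hd'
    rw [div_le_iff₀ (by positivity), hd]
    push_cast
    nlinarith
  obtain ⟨K, Az, Nz, hZ⟩ := h1 (Fin d × Fin d) (fun i v => γ v ^ (i.1 : ℕ) * ψ v ^ (i.2 : ℕ)) a b
    (fun i x hx => ((hγ x hx).pow _).mul ((hψ x hx).pow _))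
    (fun v₁ hv₁ w hw => pp_indep (htr v₁ hv₁) w hw)
  obtain ⟨c, Ad, Nd, hc, hD⟩ := pp_det γ ψ a b hγ hψ d (by omega)
  obtain ⟨M₂, hM₂0, hM₂⟩ := pp_pert hγ hψ d
  obtain ⟨L, hL⟩ := pp_lip hγ
  obtain ⟨L', hL'⟩ := pp_lip hψ
  obtain ⟨NL, hNL⟩ := exists_nat_ge (d * d * M₂ : ℝ)
  refine ⟨K * (|b - a| / c + 1), Ad + 2 * Az + 2, Nz + Nd + NL + 2 * L + 2 * L' + 4,
    fun N hN S hS₀ => ?_⟩
  choose! p hS using hS₀
  have hN4 : (4 : ℝ) ≤ N := by exact_mod_cast (by omega : 4 ≤ N)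
  have hN0 : (0 : ℝ) < N := by linarith
  have hN1 : (1 : ℝ) ≤ N := by linarith
  have hle : ∀ {A : ℕ}, A ≤ Ad + 2 * Az + 2 →
      ((N : ℝ) ^ (Ad + 2 * Az + 2))⁻¹ ≤ ((N : ℝ) ^ A)⁻¹ :=
    fun h => inv_anti₀ (by positivity) (pow_le_pow_right₀ hN1 h)
  have hsep : ∀ z ∈ S, ∀ z' ∈ S, z ≠ z' → ((N : ℝ) ^ 2)⁻¹ ≤ |p z - p z'| := by
    intro z hz z' hz' hne
    obtain ⟨q1, q2, q3⟩ := hS z hz
    obtain ⟨r1, r2, r3⟩ := hS z' hz'
    by_cases e : z.1 = z'.1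
    · have e2 : z.2 ≠ z'.2 := fun e2 => hne (Prod.ext e e2)
      refine pp_sep hN4 (L := L') ?_ (abs_nonneg _) (bp_sep hN0 e2) (q3.trans (hle (by omega)))
        (r3.trans (hle (by omega))) (hL' _ q1 _ r1)
      exact_mod_cast (by omega : 2 * L' ≤ N)
    · refine pp_sep hN4 (L := L) ?_ (abs_nonneg _) (bp_sep hN0 e) (q2.trans (hle (by omega)))
        (r2.trans (hle (by omega))) (hL _ q1 _ r1)
      exact_mod_cast (by omega : 2 * L ≤ N)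
  set l : ℝ := c * (N : ℝ) ^ (-(2 / (d + 1)) : ℝ) with hl
  have hl0 : 0 < l := by positivity
  let k : ℤ × ℤ → ℕ := fun z => ⌊(p z - a) / l⌋₊
  have hcard : S.card ≤ K * (range (⌊|b - a| / l⌋₊ + 1)).card := by
    refine card_le_mul_card_image_of_maps_to (f := k) (fun z hz => ?_) K fun j _ => ?_
    · rw [mem_range, Nat.lt_succ_iff]
      refine Nat.floor_le_floor (div_le_div_of_nonneg_right ?_ hl0.le)
      linarith [(hS z hz).1.2, le_abs_self (b - a)]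
    · set T := S.filter fun z => k z = j with hT
      have hTS : ∀ z ∈ T, z ∈ S := fun z hz => (mem_filter.mp hz).1
      obtain ⟨w, w1, w2, w3⟩ := hD N (by omega) (a + j * l) T p fun z hz => by
        refine ⟨(hS z (hTS z hz)).1, ?_, (hS z (hTS z hz)).2.1.trans (hle (by omega)),
          (hS z (hTS z hz)).2.2.trans (hle (by omega))⟩
        have e : k z = j := (mem_filter.mp hz).2
        have p0 : 0 ≤ (p z - a) / l :=
          div_nonneg (by linarith [(hS z (hTS z hz)).1.1]) hl0.le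
        have p1 := Nat.floor_le p0
        have p2 := Nat.lt_floor_add_one ((p z - a) / l)
        change (k z : ℝ) ≤ _ at p1
        change _ < (k z : ℝ) + 1 at p2
        rw [e] at p1 p2
        rw [le_div_iff₀ hl0] at p1
        rw [div_lt_iff₀ hl0] at p2
        rw [abs_le]
        constructor <;> linarith
      have hinj : Set.InjOn p T := by
        intro z hz z' hz' e
        by_contra hne
        have s1 := hsep z (hTS z hz) z' (hTS z' hz') hne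
        rw [e, sub_self, abs_zero] at s1
        have : (0 : ℝ) < ((N : ℝ) ^ 2)⁻¹ := by positivity
        linarith
      rw [← card_image_of_injOn hinj]
      have hNz : (Nz : ℝ) ≤ (N : ℝ) ^ 2 := by
        have : (Nz : ℝ) ≤ N := by exact_mod_cast (by omega : Nz ≤ N)
        nlinarith
      refine hZ ((N : ℝ) ^ 2) hNz w w1 w2 _ (fun v hv => ?_) fun v hv v' hv' hne => ?_
      · obtain ⟨z, hz, rfl⟩ := mem_image.mp hv
        obtain ⟨q1, q2, q3⟩ := hS z (hTS z hz)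
        refine ⟨q1, ?_⟩
        have hτ1 : ((N : ℝ) ^ (2 * Az + 1))⁻¹ ≤ 1 := inv_le_one_of_one_le₀ (one_le_pow₀ hN1)
        have e : ∑ i, w i * (γ (p z) ^ (i.1 : ℕ) * ψ (p z) ^ (i.2 : ℕ)) =
            ∑ i : Fin d × Fin d, -(w i * ((z.1 / N : ℝ) ^ (i.1 : ℕ) * (z.2 / N : ℝ) ^ (i.2 : ℕ) -
              γ (p z) ^ (i.1 : ℕ) * ψ (p z) ^ (i.2 : ℕ))) := by
          rw [← sub_zero (∑ i, w i * (γ (p z) ^ (i.1 : ℕ) * ψ (p z) ^ (i.2 : ℕ))), ← w3 z hz,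
            ← sum_sub_distrib]
          exact sum_congr rfl fun i _ => by ring
        rw [e]
        refine (abs_sum_le_sum_abs _ _).trans ?_
        have hb : ∀ i ∈ (univ : Finset (Fin d × Fin d)),
            |-(w i * ((z.1 / N : ℝ) ^ (i.1 : ℕ) * (z.2 / N : ℝ) ^ (i.2 : ℕ) -
              γ (p z) ^ (i.1 : ℕ) * ψ (p z) ^ (i.2 : ℕ)))| ≤
              M₂ * ((N : ℝ) ^ (2 * Az + 1))⁻¹ := by
          intro i _
          rw [abs_neg, abs_mul]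
          have := hM₂ i _ q1 _ _ _ (q2.trans (hle (A := 2 * Az + 1) (by omega)))
            (q3.trans (hle (A := 2 * Az + 1) (by omega))) hτ1
          calc _ ≤ 1 * (M₂ * ((N : ℝ) ^ (2 * Az + 1))⁻¹) := by gcongr; exact w2 i
            _ = _ := one_mul _
        refine (sum_le_card_nsmul _ _ _ hb).trans ?_
        simp only [card_univ, Fintype.card_prod, Fintype.card_fin, nsmul_eq_mul, Nat.cast_mul]
        have g6 : (d * d * M₂ : ℝ) ≤ N := hNL.trans (by exact_mod_cast (by omega : NL ≤ N))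
        calc (d : ℝ) * d * (M₂ * ((N : ℝ) ^ (2 * Az + 1))⁻¹)
            = (d * d * M₂) * ((N : ℝ) ^ (2 * Az + 1))⁻¹ := by ring
          _ ≤ N * ((N : ℝ) ^ (2 * Az + 1))⁻¹ := by gcongr
          _ = (((N : ℝ) ^ 2) ^ Az)⁻¹ := by
            rw [← pow_mul]
            field_simp
            ring
      · obtain ⟨z, hz, rfl⟩ := mem_image.mp hv
        obtain ⟨z', hz', rfl⟩ := mem_image.mp hv'
        exact hsep z (hTS z hz) z' (hTS z' hz') fun e => hne (by rw [e])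
  have hpow : (1 : ℝ) ≤ (N : ℝ) ^ ε := Real.one_le_rpow hN1 hε.le
  have hfl : (⌊|b - a| / l⌋₊ : ℝ) ≤ |b - a| / c * (N : ℝ) ^ ε := by
    refine (Nat.floor_le (by positivity)).trans ?_
    rw [hl, Real.rpow_neg hN0.le, ← div_div, div_inv_eq_mul]
    gcongr
  have hc' : (S.card : ℝ) ≤ K * ((⌊|b - a| / l⌋₊ : ℝ) + 1) := by
    rw [card_range] at hcard
    exact_mod_cast hcard
  calc (S.card : ℝ) ≤ K * ((⌊|b - a| / l⌋₊ : ℝ) + 1) := hc'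
    _ ≤ K * (|b - a| / c * (N : ℝ) ^ ε + (N : ℝ) ^ ε) := by gcongr
    _ = _ := by ring

end Pool.Agent.MP_c1891a_nt.H43
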