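import Pool.Agent.MP_c1891a_nt.H43.Spec

/-
The polynomial `k + c (x + 1/x + y + 1/y)` satisfies the three side conditions.
-/

namespace Pool.Agent.MP_c1891a_nt.H43

open Finset

/-- the polynomial `k + c (x + 1/x + y + 1/y)`. -/
noncomputable def exP (k c : ℤ) : LP :=
  AddMonoidAlgebra.single (0, 0) k + AddMonoidAlgebra.single (1, 0) c +
    AddMonoidAlgebra.single (-1, 0) c + AddMonoidAlgebra.single (0, 1) c +
    AddMonoidAlgebra.single (0, -1) c

theorem exP_sum (k c : ℤ) (g : ℤ × ℤ → ℂ) :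
    ∑ μ ∈ (exP k c).coeff.support, ((exP k c).coeff μ : ℂ) * g μ =
      k * g (0, 0) + c * (g (1, 0) + g (-1, 0) + g (0, 1) + g (0, -1)) := by
  have h : ∀ P : LP, ∑ μ ∈ P.coeff.support, (P.coeff μ : ℂ) * g μ =
      P.coeff.sum fun μ a => (a : ℂ) * g μ := fun _ => rfl
  rw [h]
  simp only [exP, AddMonoidAlgebra.coeff_add, AddMonoidAlgebra.coeff_single]
  rw [Finsupp.sum_add_index', Finsupp.sum_add_index', Finsupp.sum_add_index',
    Finsupp.sum_add_index']
  · simp only [Finsupp.sum_single_index, Int.cast_zero, zero_mul]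
    ring
  all_goals first
    | (intro a b₁ b₂; push_cast; ring)
    | (intro a; simp)

theorem exP_ev (k c : ℤ) (x y : ℂ) : ev (exP k c) x y = k + c * (x + x⁻¹ + y + y⁻¹) := by
  have := exP_sum k c fun μ => x ^ μ.1 * y ^ μ.2
  simp only [← mul_assoc] at this
  rw [ev, this]
  simp

theorem exP_d1 (k c : ℤ) (x y : ℂ) :
    ∑ μ ∈ (exP k c).coeff.support, (μ.1 : ℂ) * (((exP k c).coeff μ : ℂ) * x ^ μ.1 * y ^ μ.2) =
      c * (x - x⁻¹) := by
  have := exP_sum k c fun μ => (μ.1 : ℂ) * (x ^ μ.1 * y ^ μ.2)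
  rw [sum_congr rfl fun μ _ => (by ring : (μ.1 : ℂ) * (((exP k c).coeff μ : ℂ) * x ^ μ.1 * y ^ μ.2)
    = ((exP k c).coeff μ : ℂ) * ((μ.1 : ℂ) * (x ^ μ.1 * y ^ μ.2))), this]
  simp [sub_eq_add_neg]

theorem exP_d2 (k c : ℤ) (x y : ℂ) :
    ∑ μ ∈ (exP k c).coeff.support, (μ.2 : ℂ) * (((exP k c).coeff μ : ℂ) * x ^ μ.1 * y ^ μ.2) =
      c * (y - y⁻¹) := by
  have := exP_sum k c fun μ => (μ.2 : ℂ) * (x ^ μ.1 * y ^ μ.2)
  rw [sum_congr rfl fun μ _ => (by ring : (μ.2 : ℂ) * (((exP k c).coeff μ : ℂ) * x ^ μ.1 * y ^ μ.2)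
    = ((exP k c).coeff μ : ℂ) * ((μ.2 : ℂ) * (x ^ μ.1 * y ^ μ.2))), this]
  simp [sub_eq_add_neg]

theorem ex_two_ne {a : ℤ} (ha : a ≠ 0) : (2 : ℂ) ^ a ≠ 1 := by
  intro h
  have h2 : ((2 : ℝ) ^ a) = 1 := by
    apply Complex.ofReal_injective
    push_cast
    exact h
  exact ha ((zpow_eq_one_iff_right₀ (by norm_num) (by norm_num)).1 h2)

theorem ex_two_pos (a : ℤ) : (2 : ℂ) ^ a + 1 ≠ 0 := by
  intro h
  have h2 : ((2 : ℝ) ^ a) + 1 = 0 := by
    apply Complex.ofReal_injective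
    push_cast
    exact h
  have : (0 : ℝ) < 2 ^ a := by positivity
  linarith

/-- a sum of geometric sequences with one ratio equal to one. -/
theorem ex_half {e u A : ℂ} (hu : u ≠ 0) (hA0 : A ≠ 0) (hA : A ≠ 1) (hA' : A + 1 ≠ 0)
    (h : ∀ j : ℕ, e + (u * A ^ j + (u * A ^ j)⁻¹) = 0) : False := by
  have h0 := h 0
  have h1 := h 1
  have h2 := h 2
  simp only [mul_inv, pow_zero, pow_one, mul_one, ← inv_pow] at h0 h1 h2
  have hi : A * A⁻¹ = 1 := mul_inv_cancel₀ hA0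
  have key : u * ((A - 1) * ((A - 1) * (A + 1))) = 0 := by
    linear_combination A * h2 - (A + 1) * h1 + h0 - (u⁻¹ * (A⁻¹ - 1)) * hi
  exact mul_ne_zero hu (mul_ne_zero (sub_ne_zero.2 hA) (mul_ne_zero (sub_ne_zero.2 hA) hA')) key

theorem exP_noCoset {k c : ℤ} (hk : k ≠ 0) (hc : c ≠ 0) : NoCoset (exP k c) := by
  intro x y hx hy a b hab
  by_contra hcon
  push Not at hcon
  have hc' : (c : ℂ) ≠ 0 := by exact_mod_cast hc
  have hk' : (k : ℂ) ≠ 0 := by exact_mod_cast hk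
  have h : ∀ j : ℕ, (k : ℂ) + c * (x * ((2 : ℂ) ^ a) ^ j + (x * ((2 : ℂ) ^ a) ^ j)⁻¹ +
      y * ((2 : ℂ) ^ b) ^ j + (y * ((2 : ℂ) ^ b) ^ j)⁻¹) = 0 := by
    intro j
    have := hcon ((2 : ℂ) ^ j) (pow_ne_zero _ two_ne_zero)
    rw [exP_ev] at this
    have e : ∀ n : ℤ, ((2 : ℂ) ^ j) ^ n = ((2 : ℂ) ^ n) ^ j := fun n => by
      rw [← zpow_natCast, ← zpow_natCast, ← zpow_mul, ← zpow_mul, mul_comm]
    rwa [e, e] at this
  have hA0 : (2 : ℂ) ^ a ≠ 0 := zpow_ne_zero _ two_ne_zero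
  have hB0 : (2 : ℂ) ^ b ≠ 0 := zpow_ne_zero _ two_ne_zero
  by_cases ha : a = 0
  · have hb : b ≠ 0 := hab.resolve_left fun h => h ha
    refine ex_half (e := k / c + x + x⁻¹) hy hB0 (ex_two_ne hb) (ex_two_pos b) fun j => ?_
    have := h j
    rw [ha, zpow_zero, one_pow, mul_one] at this
    apply mul_left_cancel₀ hc'
    have hi : (c : ℂ) * (k / c) = k := mul_div_cancel₀ _ hc'
    linear_combination this + hi
  by_cases hb : b = 0
  · refine ex_half (e := k / c + y + y⁻¹) hx hA0 (ex_two_ne ha) (ex_two_pos a) fun j => ?_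
    have := h j
    rw [hb, zpow_zero, one_pow, mul_one] at this
    apply mul_left_cancel₀ hc'
    have hi : (c : ℂ) * (k / c) = k := mul_div_cancel₀ _ hc'
    linear_combination this + hi
  have hA := sub_ne_zero.2 (ex_two_ne ha)
  have hB := sub_ne_zero.2 (ex_two_ne hb)
  generalize (2 : ℂ) ^ a = A at *
  generalize (2 : ℂ) ^ b = B at *
  have hA' : A⁻¹ - 1 ≠ 0 := fun h => hA (by rw [sub_eq_zero] at h ⊢; exact inv_eq_one.1 h)
  have hB' : B⁻¹ - 1 ≠ 0 := fun h => hB (by rw [sub_eq_zero] at h ⊢; exact inv_eq_one.1 h)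
  have h0 := h 0
  have h1 := h 1
  have h2 := h 2
  have h3 := h 3
  have h4 := h 4
  simp only [mul_inv, pow_zero, pow_one, mul_one, ← inv_pow] at h0 h1 h2 h3 h4
  generalize A⁻¹ = A' at *
  generalize B⁻¹ = B' at *
  have key : (k : ℂ) * ((A - 1) * (A' - 1) * ((B - 1) * (B' - 1))) = 0 := by
    linear_combination h4 - (A + A' + B + B') * h3 +
      (A * A' + A * B + A * B' + A' * B + A' * B' + B * B') * h2 -
      (A * A' * B + A * A' * B' + A * B * B' + A' * B * B') * h1 + A * A' * B * B' * h0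
  exact mul_ne_zero hk' (mul_ne_zero (mul_ne_zero hA hA') (mul_ne_zero hB hB')) key

theorem exP_nonMon {k c : ℤ} (hc : c ≠ 0) : NonMon (exP k c) := by
  refine ⟨(1, 0), (0, 1), by decide, ?_, ?_⟩ <;>
    simpa [exP, AddMonoidAlgebra.coeff_add, AddMonoidAlgebra.coeff_single, Finsupp.single_apply]
      using hc

theorem ex_pm {x : ℂ} (hx : ‖x‖ = 1) (h : x - x⁻¹ = 0) : x + x⁻¹ = 2 ∨ x + x⁻¹ = -2 := by
  have h0 : x ≠ 0 := fun e => by simp [e] at hx
  have hi : x * x⁻¹ = 1 := mul_inv_cancel₀ h0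
  have : (x - 1) * (x + 1) = 0 := by linear_combination x * h + hi
  rcases mul_eq_zero.1 this with e | e
  · left; linear_combination 2 * e - h
  · right; linear_combination 2 * e - h

theorem exP_smooth {k c : ℤ} (hk : k ≠ 0) (hc : c ≠ 0) (h1 : k ≠ 4 * c) (h2 : k ≠ -(4 * c)) :
    Smooth (exP k c) := by
  intro x y hx hy h
  rw [exP_d1, exP_d2]
  rw [exP_ev] at h
  have hc' : (c : ℂ) ≠ 0 := by exact_mod_cast hc
  by_contra hcon
  push Not at hcon
  have e1 := ex_pm hx ((mul_eq_zero.1 hcon.1).resolve_left hc')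
  have e2 := ex_pm hy ((mul_eq_zero.1 hcon.2).resolve_left hc')
  rcases e1 with e1 | e1 <;> rcases e2 with e2 | e2
  · apply h2
    have : (k : ℂ) = -(4 * c) := by linear_combination h - c * e1 - c * e2
    exact_mod_cast this
  · apply hk
    have : (k : ℂ) = 0 := by linear_combination h - c * e1 - c * e2
    exact_mod_cast this
  · apply hk
    have : (k : ℂ) = 0 := by linear_combination h - c * e1 - c * e2
    exact_mod_cast this
  · apply h1
    have : (k : ℂ) = 4 * c := by linear_combination h - c * e1 - c * e2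
    exact_mod_cast this

/-- the example satisfies the three side conditions. -/
theorem exP_good {k c : ℤ} (hk : k ≠ 0) (h : |k| < 4 * |c|) :
    NoCoset (exP k c) ∧ NonMon (exP k c) ∧ Smooth (exP k c) := by
  have hc : c ≠ 0 := by
    rintro rfl
    have := abs_nonneg k
    simp at h
    omega
  refine ⟨exP_noCoset hk hc, exP_nonMon hc, exP_smooth hk hc ?_ ?_⟩
  · rintro rfl
    rw [abs_mul] at h
    simp at h
  · rintro rfl
    rw [abs_neg, abs_mul] at h
    simp at h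

end Pool.Agent.MP_c1891a_nt.H43
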