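import Pool.Agent.MP_c1891a_nt.H43.Spec2

/-
The determinant method for rational points near a parametrised arc.
-/

namespace Pool.Agent.MP_c1891a_nt.H43

open Finset Polynomial Filter Topology

/-- few rational points are very near a parametrised transcendental arc. -/
def SBPP : Prop :=
  ∀ (γ ψ : ℝ → ℝ) (a b : ℝ), AnalyticOnNhd ℝ γ (Set.Icc a b) → AnalyticOnNhd ℝ ψ (Set.Icc a b) →
    (∀ t₁ ∈ Set.Icc a b, ∀ W : ℝ[X][X], (∀ᶠ t in 𝓝 t₁, W.evalEval (ψ t) (γ t) = 0) → W = 0) →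
    ∀ ε : ℝ, 0 < ε → ∃ (C : ℝ) (A N₀ : ℕ), ∀ N : ℕ, N₀ ≤ N → ∀ S : Finset (ℤ × ℤ),
      (∀ z ∈ S, ∃ t ∈ Set.Icc a b, |(z.1 / N : ℝ) - γ t| ≤ ((N : ℝ) ^ A)⁻¹ ∧
        |(z.2 / N : ℝ) - ψ t| ≤ ((N : ℝ) ^ A)⁻¹) →
      (S.card : ℝ) ≤ C * (N : ℝ) ^ ε

end Pool.Agent.MP_c1891a_nt.H43
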